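import Pool.Agent.U96.MP.Main
import Pool.Agent.N852.EL.Fin

/-!
The asymptotic formula for all adelic heights, for products of smooth multilinear complete
intersections and projective spaces.
-/

set_option autoImplicit false
set_option linter.unusedSectionVars false

namespace Pool.Agent.U96.MP

open Function Module Filter Topology MvPolynomial
open Pool.Agent.N852 (ic qc)
open Pool.Agent.N852.MM Pool.Agent.N852.EL

variable {V : Type} [DecidableEq V] [Fintype V] {n : V → ℕ} {k : ℕ} {F : Sys n k} {a : V → ℕ}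
  {D : ℕ}

theorem Sm_res {p : V → Prop} (hb : Blk F p) (h1 : ∀ v, 1 ≤ n v)
    (hS : ∀ x : Tup n ℂ, (∀ v, x v ≠ 0) → (∀ i, (∀ v ∈ F.e i, p v) → ev F i x = 0) →
      ∀ s : Fin k → ℂ, (∀ i, s i ≠ 0 → ∀ v ∈ F.e i, p v) →
      (∀ v (l : Fin (n v)), ∑ i : Wi F v, s i * der F v x i l = 0) → s = 0) :
    Sm (res F p) := by
  classical
  intro x hx hI s hs
  set x' : Tup n ℂ := fun v => if h : p v then x ⟨v, h⟩ else 1 with hx'
  have e2 : rs p x' = x := by
    funext w
    unfold rs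
    rw [hx']
    simp only
    rw [dif_pos w.2]
  set s' : Fin k → ℂ := fun i =>
    if h : ∀ w ∈ F.e i, p w then s ((eB F p).symm ⟨i, h⟩) else 0 with hs'
  have e1 : ∀ i, s' (eB F p i).1 = s i := by
    intro i
    rw [hs']
    simp only
    rw [dif_pos (eB F p i).2]
    simp
  have hs0 : s' = 0 := by
    refine hS x' ?_ ?_ s' ?_ ?_
    · intro v
      rw [hx']
      simp only
      by_cases h : p v
      · rw [dif_pos h]
        exact hx ⟨v, h⟩
      · rw [dif_neg h]
        intro h0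
        have := congrFun h0 ⟨0, h1 v⟩
        simp at this
    · intro i hi
      have h2 := hI ((eB F p).symm ⟨i, hi⟩)
      rw [← e2, ev_res, Equiv.apply_symm_apply] at h2
      exact h2
    · intro i hi
      by_contra h
      apply hi
      rw [hs']
      simp only
      rw [dif_neg h]
    · intro v l
      by_cases h : p v
      · have h3 := hs ⟨v, h⟩ l
        rw [← h3]
        symm
        refine Fintype.sum_equiv (eW hb ⟨v, h⟩) _ _ fun i => ?_
        have h4 : ((eW hb ⟨v, h⟩ i).1 : Fin k) = (eB F p i.1).1 := rfl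
        rw [h4, e1]
        congr 1
        have h5 := congrFun (congrFun (der_res hb ⟨v, h⟩ x') i) l
        rw [e2] at h5
        exact h5
      · refine Finset.sum_eq_zero fun i _ => ?_
        have h6 : ¬ ∀ w ∈ F.e i.1, p w := fun h7 => h (h7 v i.2)
        rw [hs']
        simp only
        rw [dif_neg h6, zero_mul]
  funext i
  rw [← e1, hs0]
  rfl

open Classical in
theorem kB_eq (F : Sys n k) {C : Type} (lab : V → C) (c : C) :
    kB F (Bk F lab c) = (Finset.univ.filter (fun i : Fin k => ∀ v ∈ F.e i, lab v = c)).card := by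
  unfold kB
  rw [Fintype.card_subtype]
  congr 1
  ext i
  simp only [Finset.mem_filter, Finset.mem_univ, true_and]
  exact ⟨fun h v hv => (h v hv).2, fun h v hv => ⟨⟨i, hv⟩, h v hv⟩⟩

/-- the variables of a block as variables -/
def emb (p : V → Prop) (q : Σ v : {v // p v}, Fin (n v.1)) : Σ v, Fin (n v) := ⟨q.1.1, q.2⟩

theorem emb_inj (p : V → Prop) : Injective (emb (n := n) p) := by
  rintro ⟨⟨v, h⟩, j⟩ ⟨⟨v', h'⟩, j'⟩ e
  unfold emb at e
  simp only [Sigma.mk.injEq] at e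
  obtain ⟨e1, e2⟩ := e
  subst e1
  rw [heq_eq_eq] at e2
  subst e2
  rfl

open Classical in
theorem MH_rename (p : V → Prop) {f : MvPolynomial (Σ v : {v // p v}, Fin (n v.1)) ℤ}
    {ε : {v // p v} → ℕ} (hf : MH f ε) :
    MH (κ := fun v => Fin (n v)) (rename (emb p) f) (fun v => if h : p v then ε ⟨v, h⟩ else 0) := by
  intro β hβ t
  rw [support_rename_of_injective (emb_inj p), Finset.mem_image] at hβ
  obtain ⟨γ, hγ, rfl⟩ := hβ
  beta_reduce
  by_cases h : p t
  · rw [dif_pos h, ← hf γ hγ ⟨t, h⟩]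
    refine Finset.sum_congr rfl fun j _ => ?_
    exact Finsupp.mapDomain_apply (emb_inj p) γ ⟨⟨t, h⟩, j⟩
  · rw [dif_neg h]
    refine Finset.sum_eq_zero fun j _ => ?_
    refine Finsupp.mapDomain_of_notMem_range _ _ ?_
    rintro ⟨⟨⟨v, hv⟩, j'⟩, e⟩
    unfold emb at e
    simp only [Sigma.mk.injEq] at e
    exact h (e.1 ▸ hv)

theorem MH_prod {ι : Type} (s : Finset ι) (f : ι → MvPolynomial (Σ v, Fin (n v)) ℤ)
    (hf : ∀ c, ∃ ε : V → ℕ, MH (κ := fun v => Fin (n v)) (f c) ε) :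
    ∃ ε : V → ℕ, MH (κ := fun v => Fin (n v)) (∏ c ∈ s, f c) ε := by
  classical
  induction s using Finset.induction_on with
  | empty =>
    rw [Finset.prod_empty]
    exact ⟨0, MH_grl.one⟩
  | insert c s hc ih =>
    rw [Finset.prod_insert hc]
    obtain ⟨ε, h1⟩ := ih
    obtain ⟨ε', h2⟩ := hf c
    exact ⟨ε' + ε, MH_grl.mul h2 h1⟩

open Classical in
theorem main_smooth (hV : ∀ v : V, ∃ u, u ≠ v) (h1 : ∀ v, 1 ≤ n v) (h2 : ∀ i, 2 ≤ (F.e i).card)
    (ha : ∀ v, a v + dg F v = n v) (hn2 : ∀ v, ¬ Cov F v → 2 ≤ n v)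
    {C : Type} [Fintype C] {lab : V → C}
    (hlab : ∀ i, ∀ u ∈ F.e i, ∀ v ∈ F.e i, lab u = lab v)
    (hS : ∀ c, ∀ x : Tup n ℂ, (∀ v, x v ≠ 0) → (∀ i, (∀ v ∈ F.e i, lab v = c) → ev F i x = 0) →
      ∀ s : Fin k → ℂ, (∀ i, s i ≠ 0 → ∀ v ∈ F.e i, lab v = c) →
      (∀ v (l : Fin (n v)), ∑ i : Wi F v, s i * der F v x i l = 0) → s = 0)
    (hn : ∀ v, Cov F v → ((Finset.univ.filter fun w => Cov F w ∧ lab w = lab v).card - 1) *
      szB F lab (lab v) + 2 * dg F v ≤
        n v + (Finset.univ.filter fun i : Fin k => ∀ w ∈ F.e i, lab w = lab v).card)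
    (o : V) : ∃ Ω : Set (MvPolynomial (Σ v, Fin (n v)) ℤ),
      (∀ w ∈ Ω, ∃ ε : V → ℕ, MH (κ := fun v => Fin (n v)) w ε) ∧
    ∀ (S : Finset Nat.Primes) (φ₀ : Tup n ℝ → ℝ) (_ : LF F φ₀)
    (φ : ∀ p : Nat.Primes, Tup n ℚ_[p] → ℝ) (_ : ∀ p ∈ S, LF F (φ p)),
    ∃ c : ℝ, 0 < c ∧ Tendsto (fun B : ℝ =>
        (({P : ∀ v, Projectivization ℚ (Fin (n v) → ℚ) |
          Inc F (rp P) ∧ (∃ w ∈ Ω, aeval (fun q : (Σ v, Fin (n v)) => rp P q.1 q.2) w ≠ 0) ∧
            (∏ v, (P v).mulHeight ^ a v) *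
              (φ₀ (eT ℝ (rp P)) * ∏ p ∈ S, φ p (eT ℚ_[p] (rp P))) ≤ B} :
          Set (∀ v, Projectivization ℚ (Fin (n v) → ℚ))).ncard : ℝ) /
          (B * Real.log B ^ Fintype.card (Vo o))) atTop (𝓝 c) := by
  have hb := fun c => blk hlab c
  have hsz : ∀ c, ∑ i, ((res F (Bk F lab c)).e i).card = szB F lab c := fun c => by
    rw [sum_card_res, szB_eq]
  have hex : ∀ c, ∃ (A : ∀ v : {v // Bk F lab c v},
        Fin ((∑ i, ((res F (Bk F lab c)).e i).card) + 1) → Fin (n v.1) → ℤ)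
      (Ω : Set (MvPolynomial (Σ v : {v // Bk F lab c v}, Fin (n v.1)) ℤ)),
      Eng (res F (Bk F lab c)) (GS (res F (Bk F lab c)) A) (fun v => a v.1)
        (∑ i, ((res F (Bk F lab c)).e i).card) ∧ OpenW (res F (Bk F lab c))
          (GQS (res F (Bk F lab c)) A) Ω := by
    intro c
    refine open_smooth genP engS closP (fun i => by rw [card_res]; exact h2 _) (fun v => ?_)
      (Sm_res (hb c) h1 ?_) (fun v => ?_) fun v => by rw [dg_res (hb c)]; exact ha v.1
    · obtain ⟨i, hi⟩ := v.2.1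
      exact ⟨(eB F (Bk F lab c)).symm ⟨i, hb c i v.1 hi v.2⟩, by
        rw [mem_res, Equiv.apply_symm_apply]
        exact hi⟩
    · intro x hx hI s hs h
      refine hS c x hx (fun i hi => hI i fun v hv => ⟨⟨i, hv⟩, hi v hv⟩) s
        (fun i hi v hv => (hs i hi v hv).2) h
    · have h3 := hn v.1 v.2.1
      rw [v.2.2] at h3
      rw [hsz, dg_res (hb c), kB_eq, Fintype.card_subtype]
      have e1 : (Finset.univ.filter fun w => Bk F lab c w) =
          Finset.univ.filter fun w => Cov F w ∧ lab w = c := by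
        ext w
        simp [Bk]
      rw [e1]
      exact h3
  choose A Ω hE hΩ using hex
  have hE' : ∀ c, Eng (res F (Bk F lab c)) (GS (res F (Bk F lab c)) (A c)) (fun v => a v.1)
      (∑ i, (F.e i).card) := fun c => eng_mono (hE c) (by
    rw [hsz]
    exact Finset.sum_le_sum_of_subset (Finset.filter_subset _ _))
  have hP := engP hV h2 ha hn2 hlab hE'
  set GQ' : V → Tup n ℚ → Prop := fun v x =>
    (∀ c (h : Bk F lab c v), GQS (res F (Bk F lab c)) (A c) ⟨v, h⟩ (rs (Bk F lab c) x)) ∧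
      ∀ t, t ≠ v → x t ≠ 0 with hGQ'
  have hG : ∀ v (x : Tup n ℤ) (c : V → ℚ), (∀ u, c u ≠ 0) →
      (GQ' v (fun u => c u • qc (x u)) ↔
        GG (fun c => GS (res F (Bk F lab c)) (A c)) v x) := by
    intro v x c hc
    refine and_congr (forall_congr' fun c' => forall_congr' fun h => ?_)
      (forall_congr' fun t => forall_congr' fun ht => ?_)
    · exact gqs_iff ⟨v, h⟩ (rs (Bk F lab c') x) (fun u => c u.1) fun u => hc u.1
    · rw [not_iff_not, smul_eq_zero_iff_right (hc t)]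
      exact qc_eq_zero
  set Ω' : Set (MvPolynomial (Σ v, Fin (n v)) ℤ) := {w | ∃ ω : ∀ c,
    MvPolynomial (Σ v : {v // Bk F lab c v}, Fin (n v.1)) ℤ, (∀ c, ω c ∈ Ω c) ∧
      w = ∏ c, rename (emb (Bk F lab c)) (ω c)} with hΩ'
  have hO : OpenW F GQ' Ω' := by
    refine ⟨?_, fun P hP => ?_⟩
    · rintro w ⟨ω, hω, rfl⟩
      refine MH_prod Finset.univ _ fun c => ?_
      obtain ⟨ε, hε⟩ := (hΩ c).1 (ω c) (hω c)
      exact ⟨_, MH_rename _ hε⟩
    · have hc := fun c => (hΩ c).2 (fun v => P v.1) (Inc_res (Bk F lab c) hP)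
      have hav : ∀ c (ω : MvPolynomial (Σ v : {v // Bk F lab c v}, Fin (n v.1)) ℤ),
          aeval (fun q : (Σ v, Fin (n v)) => rp P q.1 q.2) (rename (emb (Bk F lab c)) ω) =
          aeval (fun q : (Σ v : {v // Bk F lab c v}, Fin (n v.1)) =>
            rp (fun v : {v // Bk F lab c v} => P v.1) q.1 q.2) ω := by
        intro c ω
        rw [aeval_rename]
        rfl
      constructor
      · intro h
        have h3 : ∀ c, ∃ w ∈ Ω c, aeval (fun q : (Σ v : {v // Bk F lab c v}, Fin (n v.1)) =>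
            rp (fun v : {v // Bk F lab c v} => P v.1) q.1 q.2) w ≠ 0 := fun c =>
          (hc c).1 fun v => (h v.1).1 c v.2
        choose ω hω hω' using h3
        refine ⟨∏ c, rename (emb (Bk F lab c)) (ω c), ⟨ω, hω, rfl⟩, ?_⟩
        rw [map_prod, Finset.prod_ne_zero_iff]
        intro c _
        rw [hav]
        exact hω' c
      · rintro ⟨w, ⟨ω, hω, rfl⟩, hw⟩ v
        rw [map_prod, Finset.prod_ne_zero_iff] at hw
        refine ⟨fun c h => ?_, fun t _ => (P t).rep_nonzero⟩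
        have h4 := hw c (Finset.mem_univ c)
        rw [hav] at h4
        exact (hc c).2 ⟨ω c, hω c, h4⟩ ⟨v, h⟩
  refine ⟨Ω', hO.1, fun S φ₀ h₀ φ hφ => ?_⟩
  exact main_open hP hG hO o S φ₀ h₀ φ hφ

end Pool.Agent.U96.MP
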