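import Pool.Agent.U96.MP.Prod

/-!
The asymptotic formula for all adelic heights, for products of multilinear complete intersections and
projective spaces.
-/

set_option autoImplicit false
set_option linter.unusedSectionVars false

namespace Pool.Agent.U96.MP

open Function Module Filter Topology
open Pool.Agent.N852 (ic qc)
open Pool.Agent.N852.MM

variable {V : Type} [DecidableEq V] [Fintype V] {n : V → ℕ} {k : ℕ} {F : Sys n k} {a : V → ℕ}
  {D : ℕ}

open Classical in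
/-- the number of all vectors in the forms of a block, with multiplicities -/
noncomputable def szB (F : Sys n k) {C : Type} (lab : V → C) (c : C) : ℕ :=
  ∑ i ∈ Finset.univ.filter (fun i => ∀ v ∈ F.e i, lab v = c), (F.e i).card

open Classical in
theorem szB_eq (F : Sys n k) {C : Type} (lab : V → C) (c : C) :
    ∑ i ∈ Finset.univ.filter (fun i => ∀ v ∈ F.e i, Bk F lab c v), (F.e i).card = szB F lab c := by
  unfold szB
  refine Finset.sum_congr ?_ fun _ _ => rfl
  ext i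
  simp only [Finset.mem_filter, Finset.mem_univ, true_and]
  exact ⟨fun h v hv => (h v hv).2, fun h v hv => ⟨⟨i, hv⟩, h v hv⟩⟩

/-- the open set over the rational numbers -/
def GQ (F : Sys n k) (v : V) (x : Tup n ℚ) : Prop :=
  LinearIndependent ℚ (der F v x) ∧ ∀ t, t ≠ v → x t ≠ 0

theorem qc_eq_zero {N : ℕ} {x : Fin N → ℤ} : qc x = 0 ↔ x = 0 := by
  constructor
  · intro h
    funext i
    have h1 := congrFun h i
    simpa [qc] using h1
  · intro h
    funext i
    simp [qc, h]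

open Classical in
theorem main_prod (hV : ∀ v : V, ∃ u, u ≠ v) (h1 : ∀ v, 1 ≤ n v) (h2 : ∀ i, 2 ≤ (F.e i).card)
    (ha : ∀ v, a v + dg F v = n v) (hn2 : ∀ v, ¬ Cov F v → 2 ≤ n v)
    {C : Type} [Fintype C] {lab : V → C}
    (hlab : ∀ i, ∀ u ∈ F.e i, ∀ v ∈ F.e i, lab u = lab v)
    (hRC : ∀ u v, u ≠ v → ∀ s : Fin k → ℝ, (∀ i, s i ≠ 0 → u ∈ F.e i ∧ v ∈ F.e i) → s ≠ 0 →
      ∀ x : Tup n ℝ, (∀ t, t ≠ u → t ≠ v → x t ≠ 0) →
      szB F lab (lab u) <
      (Matrix.of fun (b : Fin (n v)) (c : Fin (n u)) => ∑ i, s i *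
        ev F i (update (update x v (Pi.single b 1)) u (Pi.single c 1))).rank) (o : V)
    (S : Finset Nat.Primes) (φ₀ : Tup n ℝ → ℝ) (h₀ : LF F φ₀)
    (φ : ∀ p : Nat.Primes, Tup n ℚ_[p] → ℝ) (hφ : ∀ p ∈ S, LF F (φ p)) :
    ∃ c : ℝ, 0 < c ∧ Tendsto (fun B : ℝ =>
      (({P : ∀ v, Projectivization ℚ (Fin (n v) → ℚ) |
        Inc F (rp P) ∧ (∀ v, LinearIndependent ℚ (der F v (rp P))) ∧
          (∏ v, (P v).mulHeight ^ a v) * (φ₀ (eT ℝ (rp P)) * ∏ p ∈ S, φ p (eT ℚ_[p] (rp P))) ≤ B} :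
        Set (∀ v, Projectivization ℚ (Fin (n v) → ℚ))).ncard : ℝ) /
        (B * Real.log B ^ Fintype.card (Vo o))) atTop (𝓝 c) := by
  have hb := fun c => blk hlab c
  have hE : ∀ c, Eng (res F (Bk F lab c)) (GI (res F (Bk F lab c))) (fun v => a v.1)
      (∑ i, (F.e i).card) := by
    intro c
    refine eng_mono (eng_block h2 h1 ha (hb c) (fun v h => h.1) ?_) ?_
    · intro u v hu huv s hs hs0 x hx
      rw [szB_eq, ← hu.2]
      exact hRC u v huv s hs hs0 x hx
    · exact Finset.sum_le_sum_of_subset (Finset.filter_subset _ _)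
  have hP := engP hV h2 ha hn2 hlab hE
  have hG : ∀ v (x : Tup n ℤ) (c : V → ℚ), (∀ u, c u ≠ 0) →
      (GQ F v (fun u => c u • qc (x u)) ↔ GG (fun c => GI (res F (Bk F lab c))) v x) := by
    intro v x c hc
    refine and_congr ((GQ_iff v x c hc).trans ?_)
      (forall_congr' fun t => forall_congr' fun ht => ?_)
    · constructor
      · intro h c h'
        exact (GI_res (hb c) ⟨v, h'⟩ x).2 h
      · intro h
        by_cases hv : Cov F v
        · exact (GI_res (hb _) ⟨v, hv, rfl⟩ x).1 (h (lab v) ⟨hv, rfl⟩)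
        · exact GI_uncov hv x
    · rw [not_iff_not, smul_eq_zero_iff_right (hc t)]
      exact qc_eq_zero
  obtain ⟨c, hc, hlim⟩ := main_adel hP Pool.Agent.N717.MM.simP o (GQ F) hG S φ₀ h₀ φ hφ
  refine ⟨c, hc, hlim.congr fun B => ?_⟩
  have hset : {P : ∀ v, Projectivization ℚ (Fin (n v) → ℚ) |
        Inc F (rp P) ∧ (∀ v, GQ F v (rp P)) ∧
          (∏ v, (P v).mulHeight ^ a v) *
            (φ₀ (eT ℝ (rp P)) * ∏ p ∈ S, φ p (eT ℚ_[p] (rp P))) ≤ B} =
      {P : ∀ v, Projectivization ℚ (Fin (n v) → ℚ) |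
        Inc F (rp P) ∧ (∀ v, LinearIndependent ℚ (der F v (rp P))) ∧
          (∏ v, (P v).mulHeight ^ a v) *
            (φ₀ (eT ℝ (rp P)) * ∏ p ∈ S, φ p (eT ℚ_[p] (rp P))) ≤ B} := by
    ext P
    constructor
    · rintro ⟨h1, h3, h4⟩
      exact ⟨h1, fun v => (h3 v).1, h4⟩
    · rintro ⟨h1, h3, h4⟩
      exact ⟨h1, fun v => ⟨h3 v, fun t _ => (P t).rep_nonzero⟩, h4⟩
  rw [hset]

end Pool.Agent.U96.MP
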