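import Pool.Agent.U96.MP.Res

/-!
Systems of multilinear equations: the hypotheses of the counting theorem hold for a system if they
hold for its blocks; vectors which occur in no form are allowed.
-/

set_option autoImplicit false
set_option linter.unusedSectionVars false

namespace Pool.Agent.U96.MP

open Function Module
open Pool.Agent.N852 (ic qc)
open Pool.Agent.N852.DD (Bl mem_Bl card_Bl)
open Pool.Agent.N852.MM

variable {V : Type} [DecidableEq V] [Fintype V] {n : V → ℕ} {k : ℕ} {F : Sys n k} {a : V → ℕ}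
  {D : ℕ}

/-- the vector occurs in a form -/
def Cov (F : Sys n k) (v : V) : Prop := ∃ i, v ∈ F.e i

/-- the blocks -/
def Bk (F : Sys n k) {C : Type} (lab : V → C) (c : C) (v : V) : Prop := Cov F v ∧ lab v = c

/-- the good families, from notions of good families for the blocks -/
def GG {F : Sys n k} {C : Type} {lab : V → C}
    (G : ∀ c, {v // Bk F lab c v} → Tup (fun v : {v // Bk F lab c v} => n v.1) ℤ → Prop)
    (v : V) (x : Tup n ℤ) : Prop :=
  (∀ c (h : Bk F lab c v), G c ⟨v, h⟩ (rs (Bk F lab c) x)) ∧ ∀ t, t ≠ v → x t ≠ 0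

theorem blk {C : Type} {lab : V → C} (hlab : ∀ i, ∀ u ∈ F.e i, ∀ v ∈ F.e i, lab u = lab v) (c : C) :
    Blk F (Bk F lab c) :=
  fun i u hu hpu v hv => ⟨⟨i, hv⟩, (hlab i v hv u hu).trans hpu.2⟩

theorem GI_uncov {v : V} (hv : ¬ Cov F v) (x : Tup n ℤ) : GI F v x := by
  unfold GI
  have : IsEmpty (Wi F v) := ⟨fun i => hv ⟨i.1, i.2⟩⟩
  exact linearIndependent_empty_type

theorem GI_update_not {p : V → Prop} (hb : Blk F p) {u v : V} (hu : p u) (hv : ¬ p v)
    (x : Tup n ℤ) (z : Fin (n v) → ℤ) : GI F u (update x v z) ↔ GI F u x := by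
  rw [← GI_res hb ⟨u, hu⟩ x, ← GI_res hb ⟨u, hu⟩ (update x v z), rs_update_not p x hv]

theorem eng_mono {G : V → Tup n ℤ → Prop} {D' : ℕ} (h : Eng F G a D) (hD : D ≤ D') :
    Eng F G a D' :=
  { h with
    deg := by
      obtain ⟨C, hC, hd⟩ := h.deg
      refine ⟨C, hC, fun v X g hX hg hu => (hd v X g hX hg hu).trans ?_⟩
      have h1 : 0 ≤ C * Nm a X := mul_nonneg hC (Nm_pos fun v => by linarith [hX v]).le
      have h2 : (0 : ℝ) < X v := by linarith [hX v]
      gcongr }

open Classical in
theorem eng_block (h2 : ∀ i, 2 ≤ (F.e i).card) (h1 : ∀ v, 1 ≤ n v)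
    (ha : ∀ v, a v + dg F v = n v) {p : V → Prop} (hb : Blk F p) (hcov : ∀ v, p v → Cov F v)
    (hRC : ∀ u v, p u → u ≠ v → ∀ s : Fin k → ℝ, (∀ i, s i ≠ 0 → u ∈ F.e i ∧ v ∈ F.e i) → s ≠ 0 →
      ∀ x : Tup n ℝ, (∀ t, t ≠ u → t ≠ v → x t ≠ 0) →
      ∑ i ∈ Finset.univ.filter (fun i => ∀ v ∈ F.e i, p v), (F.e i).card <
      (Matrix.of fun (b : Fin (n v)) (c : Fin (n u)) => ∑ i, s i *
        ev F i (update (update x v (Pi.single b 1)) u (Pi.single c 1))).rank) :
    Eng (res F p) (GI (res F p)) (fun v => a v.1)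
      (∑ i ∈ Finset.univ.filter (fun i => ∀ v ∈ F.e i, p v), (F.e i).card) := by
  refine engI (fun i => by rw [card_res]; exact h2 _) (fun v => ?_)
    (fun v => by rw [dg_res hb]; exact ha v.1) (sum_card_res F p).symm (RC_res h1 hRC)
  obtain ⟨i, hi⟩ := hcov v.1 v.2
  exact ⟨(eB F p).symm ⟨i, hb i v.1 hi v.2⟩, by
    rw [mem_res, Equiv.apply_symm_apply]
    exact hi⟩

open Classical in
theorem prod_blocks (F : Sys n k) {C : Type} [Fintype C] (lab : V → C) (f : V → ℝ) :
    ∏ v, f v = (∏ c, ∏ v : {v // Bk F lab c v}, f v.1) * ∏ t : {t // ¬ Cov F t}, f t.1 := by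
  rw [← Fintype.prod_subtype_mul_prod_subtype (fun v => Cov F v) f]
  congr 1
  rw [← Finset.prod_subtype (Finset.univ.filter fun v => Cov F v) (by simp) f,
    ← Finset.prod_fiberwise _ lab]
  refine Finset.prod_congr rfl fun c _ => ?_
  rw [Finset.filter_filter,
    ← Finset.prod_subtype (Finset.univ.filter fun v => Cov F v ∧ lab v = c) (by simp [Bk]) f]

open Classical in
theorem card_blocks {C : Type} [Fintype C] (lab : V → C) (W : Finset (Tup n ℤ))
    (A : ∀ c, Finset (Tup (fun v : {v // Bk F lab c v} => n v.1) ℤ))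
    (B : ∀ t : {t // ¬ Cov F t}, Finset (Fin (n t.1) → ℤ))
    (h : ∀ x ∈ W, (∀ c, rs (Bk F lab c) x ∈ A c) ∧ ∀ t : {t // ¬ Cov F t}, x t.1 ∈ B t) :
    W.card ≤ (∏ c, (A c).card) * ∏ t, (B t).card := by
  rw [← Fintype.card_piFinset, ← Fintype.card_piFinset, ← Finset.card_product]
  refine Finset.card_le_card_of_injOn (fun x => (fun c => rs (Bk F lab c) x, fun t => x t.1)) ?_ ?_
  · intro x hx
    have h1 := h x hx
    rw [Finset.mem_coe, Finset.mem_product, Fintype.mem_piFinset, Fintype.mem_piFinset]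
    exact ⟨h1.1, h1.2⟩
  · intro x _ y _ hxy
    funext v
    by_cases hv : Cov F v
    · exact congrFun (congrFun (congrArg Prod.fst hxy) (lab v)) ⟨v, hv, rfl⟩
    · exact congrFun (congrArg Prod.snd hxy) ⟨v, hv⟩

open Classical in
/-- a family with given restrictions -/
noncomputable def glue {C : Type} {lab : V → C}
    (y : ∀ c, Tup (fun v : {v // Bk F lab c v} => n v.1) ℤ)
    (z : ∀ t : {t // ¬ Cov F t}, Fin (n t.1) → ℤ) : Tup n ℤ :=
  fun v => if h : Cov F v then y (lab v) ⟨v, h, rfl⟩ else z ⟨v, h⟩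

theorem rs_glue {C : Type} {lab : V → C}
    (y : ∀ c, Tup (fun v : {v // Bk F lab c v} => n v.1) ℤ)
    (z : ∀ t : {t // ¬ Cov F t}, Fin (n t.1) → ℤ) (c : C) :
    rs (Bk F lab c) (glue y z) = y c := by
  funext w
  obtain ⟨v, h, hc⟩ := w
  subst hc
  unfold rs glue
  simp only
  rw [dif_pos h]

theorem glue_not {C : Type} {lab : V → C}
    (y : ∀ c, Tup (fun v : {v // Bk F lab c v} => n v.1) ℤ)
    (z : ∀ t : {t // ¬ Cov F t}, Fin (n t.1) → ℤ) (t : {t // ¬ Cov F t}) :
    glue y z t.1 = z t := by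
  unfold glue
  rw [dif_neg t.2]

open Classical in
theorem le_card_blocks {C : Type} [Fintype C] (lab : V → C) (W : Finset (Tup n ℤ))
    (A : ∀ c, Finset (Tup (fun v : {v // Bk F lab c v} => n v.1) ℤ))
    (B : ∀ t : {t // ¬ Cov F t}, Finset (Fin (n t.1) → ℤ))
    (h : ∀ x, (∀ c, rs (Bk F lab c) x ∈ A c) → (∀ t : {t // ¬ Cov F t}, x t.1 ∈ B t) → x ∈ W) :
    (∏ c, (A c).card) * ∏ t, (B t).card ≤ W.card := by
  rw [← Fintype.card_piFinset, ← Fintype.card_piFinset, ← Finset.card_product]
  refine Finset.card_le_card_of_injOn (fun q => glue q.1 q.2) ?_ ?_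
  · intro q hq
    rw [Finset.mem_coe, Finset.mem_product, Fintype.mem_piFinset, Fintype.mem_piFinset] at hq
    rw [Finset.mem_coe]
    refine h _ (fun c => ?_) fun t => ?_
    · rw [rs_glue]
      exact hq.1 c
    · have h9 := hq.2 t
      rw [← glue_not q.1 q.2 t] at h9
      exact h9
  · intro q _ q' _ e
    simp only at e
    refine Prod.ext (funext fun c => ?_) (funext fun t => ?_)
    · rw [← rs_glue q.1 q.2 c, ← rs_glue q'.1 q'.2 c, e]
    · rw [← glue_not q.1 q.2 t, ← glue_not q'.1 q'.2 t, e]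

theorem prod_one {ι : Type} [Fintype ι] [DecidableEq ι] (f b : ι → ℝ) (i : ι) (r : ℝ)
    (hr : 0 ≤ r) (hf : ∀ j, 0 ≤ f j) (hb : ∀ j, 0 ≤ b j) (h : ∀ j, j ≠ i → f j ≤ b j)
    (hi : f i ≤ r * b i) : ∏ j, f j ≤ r * ∏ j, b j := by
  rw [← Finset.mul_prod_erase Finset.univ f (Finset.mem_univ i),
    ← Finset.mul_prod_erase Finset.univ b (Finset.mem_univ i), ← mul_assoc]
  refine mul_le_mul hi (Finset.prod_le_prod (fun j _ => hf j) fun j hj => ?_)
    (Finset.prod_nonneg fun j _ => hf j) (mul_nonneg hr (hb i))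
  exact h j (Finset.ne_of_mem_erase hj)

theorem card_Bl_ge {N : ℕ} (hN : N ≠ 0) {K : ℝ} (hK : 2 ≤ K) :
    K ^ N ≤ (((Bl N K).erase 0).card : ℝ) := by
  have hK0 : (0 : ℝ) ≤ K := by linarith
  have h0 : (0 : Fin N → ℤ) ∈ Bl N K := by
    rw [mem_Bl hK0]
    have : ic (0 : Fin N → ℤ) = 0 := by
      funext l
      simp [ic]
    rw [this, norm_zero]
    exact hK0
  rw [Finset.card_erase_of_mem h0]
  have h1 : (Bl N K).card = ((2 * ⌊K⌋ + 1).toNat) ^ N := by
    unfold Bl
    rw [Fintype.card_piFinset]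
    simp only [Finset.prod_const, Finset.card_univ, Fintype.card_fin, Int.card_Icc]
    rw [Int.ceil_neg]
    congr 2
    ring
  have h2 : (0 : ℤ) ≤ ⌊K⌋ := Int.floor_nonneg.2 hK0
  have h3 : (((2 * ⌊K⌋ + 1).toNat : ℕ) : ℝ) = 2 * (⌊K⌋ : ℝ) + 1 := by
    have h4 : (((2 * ⌊K⌋ + 1).toNat : ℕ) : ℤ) = 2 * ⌊K⌋ + 1 := Int.toNat_of_nonneg (by linarith)
    have h5 := congrArg (fun z : ℤ => (z : ℝ)) h4
    push_cast at h5
    exact h5
  have h6 : K + 1 ≤ 2 * (⌊K⌋ : ℝ) + 1 := by
    have := Int.sub_one_lt_floor K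
    linarith
  have h7 : K ^ N + 1 ≤ ((Bl N K).card : ℝ) := by
    rw [h1]
    push_cast
    rw [h3]
    calc K ^ N + 1 = K ^ N + 1 ^ N := by rw [one_pow]
      _ ≤ (K + 1) ^ N := pow_add_pow_le hK0 zero_le_one hN
      _ ≤ (2 * (⌊K⌋ : ℝ) + 1) ^ N := by gcongr
  have h8 : 1 ≤ (Bl N K).card := Finset.card_pos.2 ⟨0, h0⟩
  rw [Nat.cast_sub h8]
  push_cast
  linarith

open Classical in
/-- **The hypotheses of the counting theorem for a system from those for its blocks.** -/
theorem engP (hV : ∀ v : V, ∃ u, u ≠ v) (h2 : ∀ i, 2 ≤ (F.e i).card)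
    (ha : ∀ v, a v + dg F v = n v)
    (hn2 : ∀ v, ¬ Cov F v → 2 ≤ n v) {C : Type} [Fintype C] {lab : V → C}
    (hlab : ∀ i, ∀ u ∈ F.e i, ∀ v ∈ F.e i, lab u = lab v)
    {G : ∀ c, {v // Bk F lab c v} → Tup (fun v : {v // Bk F lab c v} => n v.1) ℤ → Prop}
    (hE : ∀ c, Eng (res F (Bk F lab c)) (G c) (fun v => a v.1) D) :
    Eng F (GG G) a D := by
  have hb := fun c => blk hlab c
  have haun : ∀ v, ¬ Cov F v → a v = n v := by
    intro v hv
    have h1 : dg F v = 0 := by
      unfold dg
      have : IsEmpty (Wi F v) := ⟨fun i => hv ⟨i.1, i.2⟩⟩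
      exact Fintype.card_eq_zero
    have := ha v
    omega
  have hNm : ∀ X : V → ℝ, Nm a X = (∏ c, Nm (fun v : {v // Bk F lab c v} => a v.1)
      (fun v => X v.1)) * ∏ t : {t // ¬ Cov F t}, X t.1 ^ n t.1 := by
    intro X
    unfold Nm
    rw [prod_blocks F lab]
    congr 1
    exact Finset.prod_congr rfl fun t _ => by rw [haun t.1 t.2]
  refine ⟨ha, ?_, ?_, ?_, ?_, ?_, ?_, ?_⟩
  · intro v
    by_cases hv : Cov F v
    · exact (hE (lab v)).two ⟨v, hv, rfl⟩
    · rw [haun v hv]
      exact hn2 v hv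
  · intro v x z
    refine and_congr (forall_congr' fun c => forall_congr' fun h => ?_)
      (forall_congr' fun t => forall_congr' fun ht => ?_)
    · rw [rs_update (Bk F lab c) x ⟨v, h⟩ z]
      exact (hE c).upd ⟨v, h⟩ (rs _ x) z
    · rw [update_of_ne ht]
  · intro v x c hc
    refine and_congr (forall_congr' fun c' => forall_congr' fun h => ?_)
      (forall_congr' fun t => forall_congr' fun ht => ?_)
    · exact (hE c').scal ⟨v, h⟩ (rs _ x) (fun u => c u.1) fun u => hc u.1
    · rw [not_iff_not]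
      exact smul_eq_zero_iff_right (hc t)
  · intro x hx v
    obtain ⟨u, huv⟩ := hV v
    exact (hx u).2 v huv.symm
  · intro v x h
    by_cases hv : Cov F v
    · exact (GI_res (hb (lab v)) ⟨v, hv, rfl⟩ x).1 ((hE (lab v)).ind _ _ (h.1 (lab v) ⟨hv, rfl⟩))
    · exact GI_uncov hv x
  · choose U hU1 hUX using fun c => UX_le (hE c)
    choose Cd hCd hdeg using fun c => (hE c).deg
    have hS0 : 0 ≤ ∑ c, Cd c := Finset.sum_nonneg fun c _ => hCd c
    have hP0 : 0 ≤ ∏ c, U c := Finset.prod_nonneg fun c _ => by linarith [hU1 c]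
    refine ⟨(1 + ∑ c, Cd c) * (∏ c, U c) * ∏ t : {t // ¬ Cov F t}, (3 : ℝ) ^ n t.1,
      by positivity, fun v X g hX hg hu => ?_⟩
    have hX0 : ∀ u, 0 ≤ X u := fun u => by linarith [hX u]
    have hXv : 0 < X v := by linarith [hX v]
    have hr : 0 ≤ g ^ D / X v := by positivity
    set N : C → ℝ := fun c => Nm (fun w : {v // Bk F lab c v} => a w.1) (fun w => X w.1) with hN
    have hN0 : ∀ c, 0 < N c := fun c => Nm_pos fun w => by linarith [hX w.1]
    have hbU : ∀ c, 0 ≤ U c * N c := fun c => mul_nonneg (by linarith [hU1 c]) (hN0 c).le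
    -- it is enough to have the bound with a factor
    suffices hs : ∃ r : ℝ, r ≤ (1 + ∑ c, Cd c) * (g ^ D / X v) ∧
        (((TX F (GG G) v X \ UX F (GG G) X).card : ℕ) : ℝ) ≤ r * ((∏ c, U c * N c) *
          ∏ t : {t // ¬ Cov F t}, (3 * X t.1) ^ n t.1) by
      obtain ⟨r, hr1, hr2⟩ := hs
      have h3 : 0 ≤ (∏ c, U c * N c) * ∏ t : {t // ¬ Cov F t}, (3 * X t.1) ^ n t.1 := by
        refine mul_nonneg (Finset.prod_nonneg fun c _ => hbU c)
          (Finset.prod_nonneg fun t _ => pow_nonneg (by linarith [hX0 t.1]) _)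
      refine (hr2.trans (mul_le_mul_of_nonneg_right hr1 h3)).trans (le_of_eq ?_)
      rw [hNm X, Finset.prod_mul_distrib]
      have h4 : ∏ t : {t // ¬ Cov F t}, (3 * X t.1) ^ n t.1 =
          (∏ t : {t // ¬ Cov F t}, (3 : ℝ) ^ n t.1) * ∏ t : {t // ¬ Cov F t}, X t.1 ^ n t.1 := by
        rw [← Finset.prod_mul_distrib]
        exact Finset.prod_congr rfl fun t _ => mul_pow _ _ _
      rw [h4]
      ring
    by_cases hv : Cov F v
    · refine ⟨Cd (lab v) * (g ^ D / X v), ?_, ?_⟩
      · refine mul_le_mul_of_nonneg_right ?_ hr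
        have := Finset.single_le_sum (f := Cd) (fun c _ => hCd c) (Finset.mem_univ (lab v))
        linarith
      · set v' : {w // Bk F lab (lab v) w} := ⟨v, hv, rfl⟩ with hv'
        set A : ∀ c, Finset (Tup (fun w : {w // Bk F lab c w} => n w.1) ℤ) :=
          update (fun c => UX (res F (Bk F lab c)) (G c) fun w => X w.1) (lab v)
            (TX (res F (Bk F lab (lab v))) (G (lab v)) v' (fun w => X w.1) \
              UX (res F (Bk F lab (lab v))) (G (lab v)) fun w => X w.1) with hA
        have h3 := card_blocks (F := F) lab (TX F (GG G) v X \ UX F (GG G) X) A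
          (fun t => Bl (n t.1) (X t.1)) (by
            intro x hx
            rw [Finset.mem_sdiff, mem_TX hX0, mem_UX hX0] at hx
            obtain ⟨⟨hx1, hInc, hGv, z, hz⟩, hnot⟩ := hx
            have hoth : ∀ c, c ≠ lab v → ∀ u : {w // Bk F lab c w}, G c u (rs _ x) := by
              intro c hc u
              have h9 := (hz u.1).1 c u.2
              rwa [rs_update_not (Bk F lab c) x (fun h8 => hc h8.2.symm)] at h9
            refine ⟨fun c => ?_, fun t => (mem_Bl (hX0 t.1)).2 (hx1 t.1)⟩
            by_cases hc : c = lab v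
            · subst hc
              rw [hA, update_self, Finset.mem_sdiff]
              refine ⟨(mem_TX (X := fun w : {w // Bk F lab (lab v) w} => X w.1)
                (fun w => hX0 w.1)).2 ⟨fun w => hx1 w.1, Inc_res _ hInc, hGv.1 _ v'.2, z,
                fun u => ?_⟩, fun h' => ?_⟩
              · rw [← rs_update]
                exact (hz u.1).1 _ u.2
              · apply hnot
                have h := (mem_UX (X := fun w : {w // Bk F lab (lab v) w} => X w.1)
                  (fun w => hX0 w.1)).1 h'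
                have hne : x v ≠ 0 := (hE (lab v)).ne (rs _ x) h.2.2 v'
                refine ⟨hx1, hInc, fun u => ⟨fun c hcu => ?_, fun t _ => ?_⟩⟩
                · by_cases hl : c = lab v
                  · subst hl
                    exact h.2.2 ⟨u, hcu⟩
                  · exact hoth c hl ⟨u, hcu⟩
                · by_cases ht : t = v
                  · rw [ht]
                    exact hne
                  · exact hGv.2 t ht
            · rw [hA, update_of_ne hc]
              exact (mem_UX (X := fun w : {w // Bk F lab c w} => X w.1) (fun w => hX0 w.1)).2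
                ⟨fun w => hx1 w.1, Inc_res _ hInc, hoth c hc⟩)
        have h4 : (((TX F (GG G) v X \ UX F (GG G) X).card : ℕ) : ℝ) ≤
            (∏ c, ((A c).card : ℝ)) *
              ∏ t : {t // ¬ Cov F t}, ((Bl (n t.1) (X t.1)).card : ℝ) := by
          exact_mod_cast h3
        refine h4.trans ?_
        rw [← mul_assoc]
        refine mul_le_mul ?_ (Finset.prod_le_prod (fun t _ => by positivity)
          fun t _ => card_Bl (hX t.1)) (Finset.prod_nonneg fun t _ => by positivity) ?_
        · refine prod_one (fun c => ((A c).card : ℝ)) (fun c => U c * N c) (lab v) _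
            (mul_nonneg (hCd _) hr) (fun c => by positivity) hbU (fun c hc => ?_) ?_
          · rw [hA, update_of_ne hc]
            exact hUX c _ fun w => hX w.1
          · rw [hA, update_self]
            refine (hdeg (lab v) v' (fun w => X w.1) g (fun w => hX w.1) hg
              fun w => hu w.1).trans ?_
            have h5 : Cd (lab v) * N (lab v) * (g ^ D / X v) =
                Cd (lab v) * (g ^ D / X v) * (1 * N (lab v)) := by ring
            change Cd (lab v) * N (lab v) * (g ^ D / X v) ≤ _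
            rw [h5]
            refine mul_le_mul_of_nonneg_left ?_ (mul_nonneg (hCd _) hr)
            exact mul_le_mul_of_nonneg_right (hU1 _) (hN0 _).le
        · exact mul_nonneg (mul_nonneg (hCd _) hr) (Finset.prod_nonneg fun c _ => hbU c)
    · refine ⟨g ^ D / X v, ?_, ?_⟩
      · have : 0 ≤ (∑ c, Cd c) * (g ^ D / X v) := mul_nonneg hS0 hr
        linarith
      · set v' : {t // ¬ Cov F t} := ⟨v, hv⟩ with hv'
        set B : ∀ t : {t // ¬ Cov F t}, Finset (Fin (n t.1) → ℤ) :=
          update (fun t => Bl (n t.1) (X t.1)) v' {0} with hB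
        have h3 := card_blocks (F := F) lab (TX F (GG G) v X \ UX F (GG G) X)
          (fun c => UX (res F (Bk F lab c)) (G c) fun w => X w.1) B (by
            intro x hx
            rw [Finset.mem_sdiff, mem_TX hX0, mem_UX hX0] at hx
            obtain ⟨⟨hx1, hInc, hGv, z, hz⟩, hnot⟩ := hx
            have hoth : ∀ c, ∀ u : {w // Bk F lab c w}, G c u (rs _ x) := by
              intro c u
              have h9 := (hz u.1).1 c u.2
              rwa [rs_update_not (Bk F lab c) x (fun h8 => hv h8.1)] at h9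
            refine ⟨fun c => ?_, fun t => ?_⟩
            · exact (mem_UX (X := fun w : {w // Bk F lab c w} => X w.1) (fun w => hX0 w.1)).2
                ⟨fun w => hx1 w.1, Inc_res _ hInc, hoth c⟩
            · by_cases ht : t = v'
              · subst ht
                rw [hB, update_self, Finset.mem_singleton]
                by_contra hne
                apply hnot
                refine ⟨hx1, hInc, fun u => ⟨fun c hcu => hoth c ⟨u, hcu⟩, fun t _ => ?_⟩⟩
                by_cases ht : t = v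
                · rw [ht]
                  exact hne
                · exact hGv.2 t ht
              · rw [hB, update_of_ne ht]
                exact (mem_Bl (hX0 t.1)).2 (hx1 t.1))
        have h4 : (((TX F (GG G) v X \ UX F (GG G) X).card : ℕ) : ℝ) ≤
            (∏ c, ((UX (res F (Bk F lab c)) (G c) fun w => X w.1).card : ℝ)) *
              ∏ t : {t // ¬ Cov F t}, ((B t).card : ℝ) := by
          exact_mod_cast h3
        refine h4.trans ?_
        rw [mul_left_comm]
        refine mul_le_mul (Finset.prod_le_prod (fun c _ => by positivity)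
          fun c _ => hUX c _ fun w => hX w.1) ?_ (Finset.prod_nonneg fun t _ => by positivity)
          (Finset.prod_nonneg fun c _ => hbU c)
        refine prod_one (fun t => ((B t).card : ℝ)) (fun t => (3 * X t.1) ^ n t.1) v' _
          hr (fun c => by positivity) (fun t => pow_nonneg (by linarith [hX0 t.1]) _)
          (fun t ht => ?_) ?_
        · rw [hB, update_of_ne ht]
          exact card_Bl (hX t.1)
        · rw [hB, update_self, Finset.card_singleton]
          have h5 : X v ≤ (3 * X v) ^ n v := by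
            have h6 : 1 ≤ n v := by have := hn2 v hv; omega
            calc X v ≤ (3 * X v) ^ 1 := by rw [pow_one]; linarith
              _ ≤ (3 * X v) ^ n v := pow_le_pow_right₀ (by linarith [hX v]) h6
          have h7 : (1 : ℝ) ≤ g ^ D := one_le_pow₀ hg
          have h8 : (1 : ℝ) / X v ≤ g ^ D / X v := by gcongr
          calc (((1 : ℕ) : ℝ)) = 1 / X v * X v := by
                rw [one_div, inv_mul_cancel₀ hXv.ne', Nat.cast_one]
            _ ≤ g ^ D / X v * (3 * X v) ^ n v := mul_le_mul h8 h5 hXv.le hr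
  · choose cl Kl hcl hKl hlow using fun c => (hE c).low
    have hKs : ∀ c, Kl c ≤ ∑ c, Kl c := fun c =>
      Finset.single_le_sum (f := Kl) (fun c _ => by linarith [hKl c]) (Finset.mem_univ c)
    have hK0 : 0 ≤ ∑ c, Kl c := Finset.sum_nonneg fun c _ => by linarith [hKl c]
    refine ⟨∏ c, cl c, 2 + ∑ c, Kl c, Finset.prod_pos fun c _ => hcl c, by linarith,
      fun K hK => ?_⟩
    have hK2 : 2 ≤ K := by linarith
    have hKn : (0 : ℝ) ≤ K := by linarith
    have h3 := le_card_blocks (F := F) lab (UX F (GG G) fun _ => K)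
      (fun c => UX (res F (Bk F lab c)) (G c) fun _ => K)
      (fun t => (Bl (n t.1) K).erase 0) (by
        intro x h1 h4
        have h5 := fun c => (mem_UX (X := fun _ : {w // Bk F lab c w} => K) (fun _ => hKn)).1 (h1 c)
        refine (mem_UX (X := fun _ : V => K) (fun _ => hKn)).2
          ⟨fun v => ?_, ?_, fun u => ⟨fun c hcu => (h5 c).2.2 ⟨u, hcu⟩, fun t _ => ?_⟩⟩
        · by_cases hv : Cov F v
          · exact (h5 (lab v)).1 ⟨v, hv, rfl⟩
          · have := h4 ⟨v, hv⟩
            rw [Finset.mem_erase] at this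
            exact (mem_Bl hKn).1 this.2
        · refine Inc_of_res fun i => ?_
          obtain ⟨u, hu⟩ := Finset.card_pos.1 (by have := h2 i; omega : 0 < (F.e i).card)
          exact ⟨Bk F lab (lab u), fun v hv => ⟨⟨i, hv⟩, hlab i v hv u hu⟩, (h5 (lab u)).2.1⟩
        · by_cases ht : Cov F t
          · exact (hE (lab t)).ne (rs _ x) (h5 (lab t)).2.2 ⟨t, ht, rfl⟩
          · have := h4 ⟨t, ht⟩
            rw [Finset.mem_erase] at this
            exact this.1)
    have h4 : (∏ c, ((UX (res F (Bk F lab c)) (G c) fun _ => K).card : ℝ)) *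
        ∏ t : {t // ¬ Cov F t}, (((Bl (n t.1) K).erase 0).card : ℝ) ≤
        ((UX F (GG G) fun _ => K).card : ℝ) := by
      exact_mod_cast h3
    refine le_trans ?_ h4
    rw [hNm fun _ => K, ← mul_assoc, ← Finset.prod_mul_distrib]
    refine mul_le_mul (Finset.prod_le_prod (fun c _ => ?_) fun c _ => ?_)
      (Finset.prod_le_prod (fun t _ => by positivity) fun t _ => ?_)
      (Finset.prod_nonneg fun t _ => by positivity) (Finset.prod_nonneg fun c _ => by positivity)
    · exact mul_nonneg (hcl c).le (Nm_pos fun _ => by linarith).le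
    · exact hlow c K (by linarith [hKs c])
    · exact card_Bl_ge (by have := hn2 t.1 t.2; omega) hK2

end Pool.Agent.U96.MP
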