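import Pool.Agent.N852.MM.EngI

/-!
Systems of multilinear equations: the restriction of a system to a block of vectors.
-/

set_option autoImplicit false
set_option linter.unusedSectionVars false

namespace Pool.Agent.U96.MP

open Function Module
open Pool.Agent.N852 (ic)
open Pool.Agent.N852.MM

variable {V : Type} [DecidableEq V] [Fintype V] {n : V → ℕ} {k : ℕ}

/-- the forms all of whose vectors are in the block -/
abbrev IB (F : Sys n k) (p : V → Prop) : Type := {i : Fin k // ∀ v ∈ F.e i, p v}

open Classical in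
/-- the number of these forms -/
noncomputable def kB (F : Sys n k) (p : V → Prop) : ℕ := Fintype.card (IB F p)

open Classical in
/-- a numbering of these forms -/
noncomputable def eB (F : Sys n k) (p : V → Prop) : Fin (kB F p) ≃ IB F p :=
  (Fintype.equivFin (IB F p)).symm

open Classical in
/-- the restriction of the system to a block -/
noncomputable def res (F : Sys n k) (p : V → Prop) :
    Sys (fun v : {v // p v} => n v.1) (kB F p) where
  e i := (F.e (eB F p i).1).subtype p
  T i y := F.T (eB F p i).1 fun v =>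
    y ⟨⟨v.1, (eB F p i).2 v.1 v.2⟩, Finset.mem_subtype.2 v.2⟩

/-- restriction of families -/
def rs (p : V → Prop) {R : Type*} (x : Tup n R) : Tup (fun v : {v // p v} => n v.1) R :=
  fun v => x v.1

theorem mem_res {F : Sys n k} {p : V → Prop} {i : Fin (kB F p)} {v : {v // p v}} :
    v ∈ (res F p).e i ↔ v.1 ∈ F.e (eB F p i).1 := by
  classical
  exact Finset.mem_subtype

theorem card_res {F : Sys n k} {p : V → Prop} (i : Fin (kB F p)) :
    ((res F p).e i).card = (F.e (eB F p i).1).card := by
  classical
  unfold res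
  simp only
  rw [Finset.card_subtype, Finset.filter_true_of_mem (eB F p i).2]

theorem ev_res (F : Sys n k) (p : V → Prop) {R : Type*} [CommRing R] (i : Fin (kB F p))
    (x : Tup n R) : ev (res F p) i (rs p x) = ev F (eB F p i).1 x := by
  classical
  unfold ev
  let σ : (res F p).e i ≃ F.e (eB F p i).1 :=
    { toFun := fun w => ⟨w.1.1, mem_res.1 w.2⟩
      invFun := fun v => ⟨⟨v.1, (eB F p i).2 v.1 v.2⟩, mem_res.2 v.2⟩
      left_inv := fun w => rfl
      right_inv := fun v => rfl }
  let τ : (∀ w : (res F p).e i, Fin (n w.1.1)) ≃ (∀ v : F.e (eB F p i).1, Fin (n v.1)) :=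
    { toFun := fun y v => y ⟨⟨v.1, (eB F p i).2 v.1 v.2⟩, mem_res.2 v.2⟩
      invFun := fun z w => z ⟨w.1.1, mem_res.1 w.2⟩
      left_inv := fun y => rfl
      right_inv := fun z => rfl }
  refine Fintype.sum_equiv τ _ _ fun y => ?_
  congr 1
  exact Fintype.prod_equiv σ _ _ fun w => rfl

theorem rs_update (p : V → Prop) {R : Type*} (x : Tup n R) (v : {v // p v})
    (z : Fin (n v.1) → R) : rs p (update x v.1 z) = update (rs p x) v z := by
  funext w
  by_cases h : w = v
  · subst h
    simp [rs]
  · have h' : w.1 ≠ v.1 := fun e => h (Subtype.ext e)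
    rw [update_of_ne h]
    unfold rs
    rw [update_of_ne h']

theorem rs_update_not (p : V → Prop) {R : Type*} (x : Tup n R) {u : V} (hu : ¬ p u)
    (z : Fin (n u) → R) : rs p (update x u z) = rs p x := by
  funext w
  have h' : w.1 ≠ u := fun e => hu (e ▸ w.2)
  unfold rs
  rw [update_of_ne h']

theorem dd_res (F : Sys n k) (p : V → Prop) {R : Type*} [CommRing R] (i : Fin (kB F p))
    (v : {v // p v}) (x : Tup n R) : dd (res F p) i v (rs p x) = dd F (eB F p i).1 v.1 x := by
  funext l
  unfold dd
  rw [← rs_update, ev_res]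

/-- a form which contains a vector of the block is in the block -/
def Blk (F : Sys n k) (p : V → Prop) : Prop := ∀ i, ∀ u ∈ F.e i, p u → ∀ v ∈ F.e i, p v

/-- the forms which contain a given vector of the block -/
noncomputable def eW {F : Sys n k} {p : V → Prop} (hb : Blk F p) (v : {v // p v}) :
    Wi (res F p) v ≃ Wi F v.1 :=
  Equiv.ofBijective (fun i => ⟨(eB F p i.1).1, mem_res.1 i.2⟩) (by
    constructor
    · intro i j hij
      have h1 := congrArg (fun w : Wi F v.1 => (w.1 : Fin k)) hij
      exact Subtype.ext ((eB F p).injective (Subtype.ext h1))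
    · intro i
      have h1 : ∀ w ∈ F.e i.1, p w := hb i.1 v.1 i.2 v.2
      refine ⟨⟨(eB F p).symm ⟨i.1, h1⟩, ?_⟩, ?_⟩
      · rw [mem_res, Equiv.apply_symm_apply]
        exact i.2
      · apply Subtype.ext
        simp only
        rw [Equiv.apply_symm_apply])

theorem der_res {F : Sys n k} {p : V → Prop} (hb : Blk F p) {R : Type*} [CommRing R]
    (v : {v // p v}) (x : Tup n R) :
    der (res F p) v (rs p x) = (der F v.1 x) ∘ eW hb v := by
  funext i
  exact dd_res F p i.1 v x

theorem li_res {F : Sys n k} {p : V → Prop} (hb : Blk F p) {K : Type*} [Field K]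
    (v : {v // p v}) (x : Tup n K) :
    LinearIndependent K (der (res F p) v (rs p x)) ↔ LinearIndependent K (der F v.1 x) := by
  rw [der_res hb]
  exact linearIndependent_equiv (eW hb v)

theorem dg_res {F : Sys n k} {p : V → Prop} (hb : Blk F p) (v : {v // p v}) :
    dg (res F p) v = dg F v.1 :=
  Fintype.card_congr (eW hb v)

theorem GI_res {F : Sys n k} {p : V → Prop} (hb : Blk F p) (v : {v // p v}) (x : Tup n ℤ) :
    GI (res F p) v (rs p x) ↔ GI F v.1 x := by
  unfold GI
  have h : iT (rs p x) = rs p (iT x) := rfl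
  rw [h]
  exact li_res hb v (iT x)

theorem Inc_res {F : Sys n k} (p : V → Prop) {R : Type*} [CommRing R] {x : Tup n R}
    (h : Inc F x) : Inc (res F p) (rs p x) := by
  intro i
  rw [ev_res]
  exact h _

theorem Inc_of_res {F : Sys n k} {R : Type*} [CommRing R] {x : Tup n R}
    (h : ∀ i, ∃ p : V → Prop, (∀ v ∈ F.e i, p v) ∧ Inc (res F p) (rs p x)) : Inc F x := by
  intro i
  obtain ⟨p, hp, h1⟩ := h i
  have h2 := h1 ((eB F p).symm ⟨i, hp⟩)
  rw [ev_res, Equiv.apply_symm_apply] at h2
  exact h2

theorem sum_card_res (F : Sys n k) (p : V → Prop) [DecidablePred fun i : Fin k => ∀ v ∈ F.e i, p v] :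
    ∑ i, ((res F p).e i).card = ∑ i ∈ Finset.univ.filter (fun i => ∀ v ∈ F.e i, p v),
      (F.e i).card := by
  refine Finset.sum_of_injOn (fun i => (eB F p i).1) ?_ ?_ ?_ ?_
  · intro i _ j _ hij
    exact (eB F p).injective (Subtype.ext hij)
  · intro i _
    simp only [Finset.coe_filter, Finset.mem_univ, true_and, Set.mem_ofPred_eq]
    exact (eB F p i).2
  · intro i hi hn
    exfalso
    apply hn
    rw [Finset.mem_filter] at hi
    refine ⟨(eB F p).symm ⟨i, hi.2⟩, by simp, ?_⟩
    simp only
    rw [Equiv.apply_symm_apply]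
  · intro i _
    exact card_res i

theorem RC_res {F : Sys n k} {p : V → Prop} (h1 : ∀ v, 1 ≤ n v) {D : ℕ}
    (hRC : ∀ u v, p u → u ≠ v → ∀ s : Fin k → ℝ, (∀ i, s i ≠ 0 → u ∈ F.e i ∧ v ∈ F.e i) → s ≠ 0 →
      ∀ x : Tup n ℝ, (∀ t, t ≠ u → t ≠ v → x t ≠ 0) →
      D < (Matrix.of fun (b : Fin (n v)) (c : Fin (n u)) => ∑ i, s i *
        ev F i (update (update x v (Pi.single b 1)) u (Pi.single c 1))).rank) :
    RC (res F p) D := by
  classical
  intro u v huv s hs hs0 x hx
  set s' : Fin k → ℝ := fun i =>
    if h : ∀ w ∈ F.e i, p w then s ((eB F p).symm ⟨i, h⟩) else 0 with hs'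
  have e1 : ∀ i, s' (eB F p i).1 = s i := by
    intro i
    rw [hs']
    simp only
    rw [dif_pos (eB F p i).2]
    simp
  set x' : Tup n ℝ := fun v => if h : p v then x ⟨v, h⟩ else 1 with hx'
  have e2 : rs p x' = x := by
    funext w
    unfold rs
    rw [hx']
    simp only
    rw [dif_pos w.2]
  have h3 := hRC u.1 v.1 u.2 (fun h => huv (Subtype.ext h)) s' (by
    intro i hi
    by_cases h : ∀ w ∈ F.e i, p w
    · rw [hs'] at hi
      simp only at hi
      rw [dif_pos h] at hi
      obtain ⟨h4, h5⟩ := hs _ hi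
      rw [mem_res, Equiv.apply_symm_apply] at h4 h5
      exact ⟨h4, h5⟩
    · exfalso
      apply hi
      rw [hs']
      simp only
      rw [dif_neg h]) (by
    intro h0
    apply hs0
    funext i
    rw [← e1, h0]
    rfl) x' (by
    intro t htu htv
    rw [hx']
    simp only
    by_cases h : p t
    · rw [dif_pos h]
      exact hx ⟨t, h⟩ (fun e => htu (congrArg Subtype.val e)) fun e => htv (congrArg Subtype.val e)
    · rw [dif_neg h]
      intro h0
      have := congrFun h0 ⟨0, h1 t⟩
      simp at this)
  have e3 : (Matrix.of fun (b : Fin (n v.1)) (c : Fin (n u.1)) => ∑ i, s i *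
      ev (res F p) i (update (update x v (Pi.single b 1)) u (Pi.single c 1))) =
      Matrix.of fun (b : Fin (n v.1)) (c : Fin (n u.1)) => ∑ i, s' i *
        ev F i (update (update x' v.1 (Pi.single b 1)) u.1 (Pi.single c 1)) := by
    ext b c
    simp only [Matrix.of_apply]
    refine Finset.sum_of_injOn (fun i => (eB F p i).1) ?_ ?_ ?_ ?_
    · intro i _ j _ hij
      exact (eB F p).injective (Subtype.ext hij)
    · intro i _
      simp
    · intro i _ hn
      have h6 : ¬ ∀ w ∈ F.e i, p w := by
        intro h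
        apply hn
        refine ⟨(eB F p).symm ⟨i, h⟩, by simp, ?_⟩
        simp only
        rw [Equiv.apply_symm_apply]
      rw [hs']
      simp only
      rw [dif_neg h6, zero_mul]
    · intro i _
      rw [e1, ← ev_res, rs_update, rs_update, e2]
  exact (congrArg (fun M => D < Matrix.rank M) e3).mpr h3

end Pool.Agent.U96.MP
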